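import Pool.Agent.TH382.DSP.Loc

set_option autoImplicit false

open Cardinal Set Topology

namespace Pool.Agent.TH382.DSP

open Pool.Agent.W648.DSep

/-- `X` has a pi-base of at most `κ` members, and every dense subset of every nonempty open subset
of `X` has at least `κ` points. -/
def TypeTwo (κ : Cardinal.{0}) (X : Type) [TopologicalSpace X] : Prop :=
  PiWeightLE κ X ∧ LocalDensityGE κ X

/-- Every nonempty open subset of `X` contains a nonempty open set which has a sigma-disjoint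
pi-base, or is of type two for some `κ`. -/
def LocallyKnown (X : Type) [TopologicalSpace X] : Prop :=
  ∀ O : Set X, IsOpen O → O.Nonempty → ∃ U ⊆ O, IsOpen U ∧ U.Nonempty ∧
    (HasSigmaDisjointPiBase U ∨ ∃ κ, Fast κ ∧ TypeTwo κ U)

lemma dsep_unit : DSeparable Unit := by
  intro D hD
  refine ⟨D, fun n => ⟨Subset.rfl, inferInstance⟩, (hD 0).mono (subset_iUnion D 0)⟩

lemma dsep_of_sigma {X : Type} [TopologicalSpace X] (h : HasSigmaDisjointPiBase X) :
    DSeparable X :=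
  dsep_homeo (Homeomorph.prodUnique X Unit) (prod_of_sigma h dsep_unit)

lemma prod_comm_dsep {X Y : Type} [TopologicalSpace X] [TopologicalSpace Y]
    (h : DSeparable (X × Y)) : DSeparable (Y × X) :=
  dsep_homeo (Homeomorph.prodComm X Y) h

lemma prod_open {X Y : Type} [TopologicalSpace X] [TopologicalSpace Y] (U : Set X) (V : Set Y)
    (h : DSeparable (U × V)) : DSeparable ↥(U ×ˢ V) :=
  dsep_homeo (Homeomorph.Set.prod U V).symm h

lemma piWeight_open {κ : Cardinal.{0}} {X : Type} [TopologicalSpace X] (h : PiWeightLE κ X)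
    (U : Set X) (hU : IsOpen U) : PiWeightLE κ U := by
  obtain ⟨B, ⟨hB1, hB2⟩, hB⟩ := h
  refine ⟨{W | ∃ V ∈ B, V ⊆ U ∧ W = Subtype.val ⁻¹' V}, ⟨?_, ?_⟩, ?_⟩
  · rintro _ ⟨V, hV, hVU, rfl⟩
    obtain ⟨x, hx⟩ := (hB1 V hV).2
    exact ⟨(hB1 V hV).1.preimage continuous_subtype_val, ⟨x, hVU hx⟩, hx⟩
  · intro O hO hOn
    obtain ⟨O', hO', rfl⟩ := isOpen_induced_iff.1 hO
    obtain ⟨x, hx⟩ := hOn
    obtain ⟨V, hV, hVO⟩ := hB2 (O' ∩ U) (hO'.inter hU) ⟨x.1, hx, x.2⟩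
    exact ⟨_, ⟨V, hV, fun y hy => (hVO hy).2, rfl⟩, fun y hy => (hVO hy).1⟩
  · refine le_trans ?_ hB
    refine (Cardinal.mk_le_mk_of_subset (t := (fun V : Set X => (Subtype.val ⁻¹' V : Set U)) '' B)
      ?_).trans Cardinal.mk_image_le
    rintro _ ⟨V, hV, -, rfl⟩
    exact ⟨V, hV, rfl⟩

/-- One factor arbitrary. -/
theorem one_factor {X Y : Type} [TopologicalSpace X] [TopologicalSpace Y] [T2Space Y]
    (hX : DSeparable X)
    (hY : ∀ O : Set Y, IsOpen O → O.Nonempty → ∃ V ⊆ O, IsOpen V ∧ V.Nonempty ∧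
      (HasSigmaDisjointPiBase V ∨ ∃ κ, Fast κ ∧ TypeTwo κ V ∧ PiWeightLE κ X)) :
    DSeparable (X × Y) := by
  refine glue ?_
  rintro G hG ⟨⟨a, b⟩, hab⟩
  obtain ⟨U, W, hU, hW, ha, hb, hUW⟩ := isOpen_prod_iff.1 hG a b hab
  obtain ⟨V, hVW, hV, hVn, hcase⟩ := hY W hW ⟨b, hb⟩
  refine ⟨U ×ˢ V, (Set.prod_mono Subset.rfl hVW).trans hUW, hU.prod hV,
    Set.Nonempty.prod ⟨a, ha⟩ hVn, prod_open U V ?_⟩
  rcases hcase with h | ⟨κ, hκ, h2, hX2⟩
  · exact prod_comm_dsep (prod_of_sigma h (dsep_open hX U hU))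
  · exact prod_of_density hκ (piWeight_open hX2 U hU) h2.1 h2.2

/-- Both factors of the known types. -/
theorem both_known {X Y : Type} [TopologicalSpace X] [TopologicalSpace Y] [T2Space X] [T2Space Y]
    (hX : LocallyKnown X) (hY : LocallyKnown Y) : DSeparable (X × Y) := by
  refine glue ?_
  rintro G hG ⟨⟨a, b⟩, hab⟩
  obtain ⟨U0, W0, hU0, hW0, ha, hb, hUW⟩ := isOpen_prod_iff.1 hG a b hab
  obtain ⟨U, hUU, hU, hUn, hcU⟩ := hX U0 hU0 ⟨a, ha⟩
  obtain ⟨V, hVV, hV, hVn, hcV⟩ := hY W0 hW0 ⟨b, hb⟩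
  refine ⟨U ×ˢ V, (Set.prod_mono hUU hVV).trans hUW, hU.prod hV, hUn.prod hVn,
    prod_open U V ?_⟩
  rcases hcU with h | ⟨κ, hκ, h2⟩
  · refine prod_of_sigma h ?_
    rcases hcV with h' | ⟨κ', hκ', h2'⟩
    · exact dsep_of_sigma h'
    · exact dsep_of_density hκ' h2'.1 h2'.2
  · rcases hcV with h' | ⟨κ', hκ', h2'⟩
    · exact prod_comm_dsep (prod_of_sigma h' (dsep_of_density hκ h2.1 h2.2))
    · rcases le_total κ κ' with hle | hle
      · exact prod_of_density hκ' (h2.1.mono hle) h2'.1 h2'.2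
      · exact prod_comm_dsep (prod_of_density hκ (h2'.1.mono hle) h2.1 h2.2)

theorem known_dsep {X : Type} [TopologicalSpace X] [T2Space X] (hX : LocallyKnown X) :
    DSeparable X := by
  refine glue ?_
  intro O hO hOn
  obtain ⟨U, hUU, hU, hUn, hcU⟩ := hX O hO hOn
  refine ⟨U, hUU, hU, hUn, ?_⟩
  rcases hcU with h | ⟨κ, hκ, h2⟩
  · exact dsep_of_sigma h
  · exact dsep_of_density hκ h2.1 h2.2

/-- The cardinal of the index set of the Cantor cube of the starting files. -/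
theorem fast_kap : Fast #Idx := by
  refine ⟨kap, aleph0_le_kap, fun n j => (mu_le_kap n j).trans (kap_le_idx (n + 1)), ?_⟩
  rw [Cardinal.mk_sigma]
  simp only [Cardinal.mk_out]
  exact le_rfl

theorem cube_pi : PiWeightLE #Idx (Idx → Bool) := by
  classical
  refine ⟨Set.range (fun p : Finset Idx × Finset Idx => O p.1 p.2), ⟨?_, ?_⟩, ?_⟩
  · rintro _ ⟨p, rfl⟩
    exact ⟨isOpen_O _ _, ⟨fun i => decide (i ∈ p.2), fun i _ => by simp⟩⟩
  · rintro U hU ⟨x, hx⟩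
    obtain ⟨s, h1, h2⟩ := exists_O_subset hU hx
    exact ⟨_, ⟨(s, _), rfl⟩, h2⟩
  · refine Cardinal.mk_range_le.trans ?_
    rw [Cardinal.mk_prod, Cardinal.lift_id, Cardinal.mk_finset_of_infinite]
    exact (Cardinal.mul_eq_self (Cardinal.aleph0_le_mk Idx)).le

theorem cube_density : LocalDensityGE #Idx (Idx → Bool) := by
  classical
  intro V hV hVn S hSV hVS
  obtain ⟨x, hx⟩ := hVn
  obtain ⟨s, h1, h2⟩ := exists_O_subset hV hx
  have hD : Dense (S ∪ (closure V)ᶜ) := by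
    rw [dense_iff_inter_open]
    intro W hW hWn
    by_cases hWV : (W ∩ V).Nonempty
    · obtain ⟨w, hw1, hw2⟩ := hWV
      obtain ⟨z, hz, hzS⟩ := mem_closure_iff.1 (hVS hw2) W hW hw1
      exact ⟨z, hz, Or.inl hzS⟩
    · obtain ⟨w, hw⟩ := hWn
      exact ⟨w, hw, Or.inr (fun hc => hWV (mem_closure_iff.1 hc W hW hw))⟩
  have hkap : ∀ n, kap n ≤ #S := by
    intro n
    refine (big _ hD s (s.filter (fun i => x i = true)) n).trans
      (Cardinal.mk_le_mk_of_subset ?_)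
    rintro z ⟨hz | hz, hzO⟩
    · exact hz
    · exact absurd (subset_closure (h2 hzO)) hz
  rw [Cardinal.mk_sigma]
  simp only [Cardinal.mk_out]
  refine (Cardinal.sum_le_sum _ (fun _ => #S) hkap).trans ?_
  rw [Cardinal.sum_const, Cardinal.lift_id, Cardinal.lift_id, Cardinal.mk_nat]
  exact (Cardinal.aleph0_mul_eq ((aleph0_le_kap 0).trans (hkap 0))).le

theorem cube_not : ¬ HasSigmaDisjointPiBase (Idx → Bool) := by
  rintro ⟨B, hd, hB, hpi⟩
  have := uncountable_idx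
  refine no_sigma_disjoint B (fun n V hV => hB V (mem_iUnion.2 ⟨n, hV⟩)) hd (fun U hU hUn => ?_)
  obtain ⟨V, hV, hVU⟩ := hpi U hU hUn
  obtain ⟨n, hn⟩ := mem_iUnion.1 hV
  exact ⟨n, V, hn, hVU⟩

end Pool.Agent.TH382.DSP
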