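import Pool.Agent.TH382.DSP.Main

set_option autoImplicit false

open Cardinal Set Topology

namespace Pool.Agent.TH382.DSP

open Pool.Agent.W648.DSep

lemma Fast.aleph0_le {κ : Cardinal.{0}} (h : Fast κ) : ℵ₀ ≤ κ := by
  obtain ⟨s, hs0, hsmu, -⟩ := h
  have : Infinite (s 0).ord.ToType := Cardinal.infinite_iff.2 (by simpa using hs0 0)
  obtain ⟨j⟩ : Nonempty (s 0).ord.ToType := inferInstance
  refine le_trans ?_ (hsmu 0 j)
  rw [mu_eq]
  refine le_trans ?_ (Order.le_succ _)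
  refine le_trans ?_ (Cardinal.cantor _).le
  refine le_trans ?_ (Cardinal.cantor _).le
  refine le_trans ?_ (self_le_add_right _ _)
  simpa using hs0 0

lemma PiWeightLE.mono {κ κ' : Cardinal.{0}} (h : κ ≤ κ') {X : Type} [TopologicalSpace X]
    (hX : PiWeightLE κ X) : PiWeightLE κ' X := by
  obtain ⟨B, hB, hc⟩ := hX
  exact ⟨B, hB, hc.trans h⟩

lemma PiWeightLE.prod {κ : Cardinal.{0}} (h0 : ℵ₀ ≤ κ) {X Y : Type} [TopologicalSpace X]
    [TopologicalSpace Y] (hX : PiWeightLE κ X) (hY : PiWeightLE κ Y) : PiWeightLE κ (X × Y) := by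
  obtain ⟨A, ⟨hA1, hA2⟩, hA⟩ := hX
  obtain ⟨B, ⟨hB1, hB2⟩, hB⟩ := hY
  refine ⟨Set.image2 (fun U V => U ×ˢ V) A B, ⟨?_, ?_⟩, ?_⟩
  · rintro _ ⟨U, hU, V, hV, rfl⟩
    exact ⟨(hA1 U hU).1.prod (hB1 V hV).1, (hA1 U hU).2.prod (hB1 V hV).2⟩
  · rintro O hO ⟨⟨a, b⟩, hab⟩
    obtain ⟨U, W, hU, hW, ha, hb, hUW⟩ := isOpen_prod_iff.1 hO a b hab
    obtain ⟨U', hU', hUU⟩ := hA2 U hU ⟨a, ha⟩
    obtain ⟨W', hW', hWW⟩ := hB2 W hW ⟨b, hb⟩
    exact ⟨_, ⟨U', hU', W', hW', rfl⟩, (Set.prod_mono hUU hWW).trans hUW⟩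
  · have : #(Set.image2 (fun U V => U ×ˢ V) A B) ≤ #A * #B := by
      rw [show #A * #B = #(A × B) from Cardinal.mul_def _ _]
      refine Cardinal.mk_le_of_surjective (f := fun p : A × B =>
        (⟨p.1.1 ×ˢ p.2.1, Set.mem_image2_of_mem p.1.2 p.2.2⟩ :
          Set.image2 (fun U V => U ×ˢ V) A B)) ?_
      rintro ⟨_, U, hU, V, hV, rfl⟩
      exact ⟨(⟨U, hU⟩, ⟨V, hV⟩), rfl⟩
    exact this.trans ((mul_le_mul' hA hB).trans (Cardinal.mul_eq_self h0).le)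

/-- Large local density on one factor. -/
theorem prod_of_density {κ : Cardinal.{0}} (hκ : Fast κ) {X Y : Type} [TopologicalSpace X]
    [TopologicalSpace Y] [T2Space Y] (hX : PiWeightLE κ X) (hY : PiWeightLE κ Y)
    (hd : LocalDensityGE κ Y) : DSeparable (X × Y) := by
  refine of_map hκ Prod.snd continuous_snd (hX.prod hκ.aleph0_le hY) ?_
  rintro G hG ⟨⟨a, b⟩, hab⟩ S hSG hGS
  obtain ⟨U, V, hU, hV, ha, hb, hUV⟩ := isOpen_prod_iff.1 hG a b hab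
  have h1 : Prod.snd '' (S ∩ U ×ˢ V) ⊆ V := by
    rintro _ ⟨⟨x, y⟩, ⟨-, -, hy⟩, rfl⟩
    exact hy
  have h2 : V ⊆ closure (Prod.snd '' (S ∩ U ×ˢ V)) := by
    intro v hv
    rw [mem_closure_iff]
    intro W hW hvW
    have h3 : (a, v) ∈ closure S := hGS (hUV ⟨ha, hv⟩)
    obtain ⟨⟨x, y⟩, ⟨hx, hy1, hy2⟩, hxy⟩ := mem_closure_iff.1 h3 (U ×ˢ (W ∩ V))
      (hU.prod (hW.inter hV)) ⟨ha, hvW, hv⟩
    exact ⟨y, hy1, (x, y), ⟨hxy, hx, hy2⟩, rfl⟩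
  exact (hd V hV ⟨b, hb⟩ _ h1 h2).trans (Cardinal.mk_le_mk_of_subset (image_mono inter_subset_left))

theorem dsep_of_density {κ : Cardinal.{0}} (hκ : Fast κ) {Y : Type}
    [TopologicalSpace Y] [T2Space Y] (hY : PiWeightLE κ Y)
    (hd : LocalDensityGE κ Y) : DSeparable Y := by
  refine of_map hκ id continuous_id hY ?_
  intro G hG hGn S hSG hGS
  rw [image_id]
  exact hd G hG hGn S hSG hGS

lemma dsep_homeo {X Y : Type} [TopologicalSpace X] [TopologicalSpace Y] (e : X ≃ₜ Y)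
    (h : DSeparable X) : DSeparable Y := by
  intro D hD
  obtain ⟨F, hF, hFd⟩ := h (fun n => e ⁻¹' D n) (fun n => (hD n).preimage e.isOpenMap)
  refine ⟨fun n => e '' F n, fun n => ⟨?_, discrete_of_sep _ ?_⟩, ?_⟩
  · rintro _ ⟨x, hx, rfl⟩
    exact (hF n).1 hx
  · rintro _ ⟨x, hx, rfl⟩
    obtain ⟨W, hWo, hxW, hW⟩ := sep_of_discrete _ (hF n).2 x hx
    refine ⟨e '' W, e.isOpenMap W hWo, ⟨x, hxW, rfl⟩, ?_⟩
    rintro _ ⟨y, hy, rfl⟩ ⟨z, hz, hzy⟩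
    have : z = y := e.injective hzy
    subst this
    rw [hW z hy hz]
  · have : (⋃ n, e '' F n) = e '' (⋃ n, F n) := (image_iUnion ..).symm
    rw [this]
    exact e.surjective.denseRange.dense_image e.continuous hFd

lemma dsep_open {X : Type} [TopologicalSpace X] (h : DSeparable X) (U : Set X) (hU : IsOpen U) :
    DSeparable U := by
  intro D hD
  obtain ⟨F, hF, hFd⟩ := h (fun n => Subtype.val '' D n ∪ (closure U)ᶜ) (fun n => by
    rw [dense_iff_inter_open]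
    intro O hO hOn
    by_cases hOU : (O ∩ U).Nonempty
    · obtain ⟨x, hxO, hxU⟩ := hOU
      obtain ⟨y, hyO, hyD⟩ := (hD n).inter_open_nonempty (Subtype.val ⁻¹' O)
        (hO.preimage continuous_subtype_val) ⟨⟨x, hxU⟩, hxO⟩
      exact ⟨y.1, hyO, Or.inl ⟨y, hyD, rfl⟩⟩
    · obtain ⟨x, hx⟩ := hOn
      refine ⟨x, hx, Or.inr (fun hxc => hOU ?_)⟩
      exact mem_closure_iff.1 hxc O hO hx)
  refine ⟨fun n => Subtype.val ⁻¹' F n, fun n => ⟨?_, discrete_of_sep _ ?_⟩, ?_⟩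
  · intro x hx
    rcases (hF n).1 hx with ⟨y, hy, hyx⟩ | hx'
    · rwa [Subtype.ext hyx] at hy
    · exact absurd (subset_closure x.2) hx'
  · intro x hx
    obtain ⟨W, hWo, hxW, hW⟩ := sep_of_discrete _ (hF n).2 x.1 hx
    exact ⟨Subtype.val ⁻¹' W, hWo.preimage continuous_subtype_val, hxW,
      fun y hy hyW => Subtype.ext (hW y.1 hy hyW)⟩
  · rw [dense_iff_inter_open]
    intro O hO hOn
    obtain ⟨O', hO', rfl⟩ := isOpen_induced_iff.1 hO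
    obtain ⟨x, hx⟩ := hOn
    obtain ⟨y, ⟨hy1, hy2⟩, hy⟩ := hFd.inter_open_nonempty (O' ∩ U) (hO'.inter hU) ⟨x.1, hx, x.2⟩
    obtain ⟨n, hn⟩ := mem_iUnion.1 hy
    exact ⟨⟨y, hy2⟩, hy1, mem_iUnion.2 ⟨n, hn⟩⟩

/-- Gluing: D-separability is a pi-local property. -/
theorem glue {Z : Type} [TopologicalSpace Z]
    (h : ∀ O : Set Z, IsOpen O → O.Nonempty → ∃ U ⊆ O, IsOpen U ∧ U.Nonempty ∧ DSeparable U) :
    DSeparable Z := by
  classical
  obtain ⟨𝒰, hmax⟩ := zorn_subset {𝒰 : Set (Set Z) |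
    (∀ U ∈ 𝒰, IsOpen U ∧ U.Nonempty ∧ DSeparable U) ∧ 𝒰.PairwiseDisjoint id} (by
      intro c hc hchain
      refine ⟨⋃₀ c, ⟨?_, ?_⟩, fun s hs => subset_sUnion_of_mem hs⟩
      · rintro U ⟨s, hs, hU⟩
        exact (hc hs).1 U hU
      · exact (Set.pairwiseDisjoint_sUnion hchain.directedOn).2 (fun s hs => (hc hs).2))
  have hU := hmax.prop
  have hdense : ∀ O : Set Z, IsOpen O → O.Nonempty → ∃ U ∈ 𝒰, (O ∩ U).Nonempty := by
    intro O hO hOn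
    by_contra hcon
    push Not at hcon
    obtain ⟨U, hUO, hU1, hU2, hU3⟩ := h O hO hOn
    have hmem : U ∈ 𝒰 := by
      have h1 : insert U 𝒰 ∈ {𝒰 : Set (Set Z) |
          (∀ U ∈ 𝒰, IsOpen U ∧ U.Nonempty ∧ DSeparable U) ∧ 𝒰.PairwiseDisjoint id} := by
        refine ⟨?_, ?_⟩
        · rintro V (rfl | hV)
          · exact ⟨hU1, hU2, hU3⟩
          · exact hU.1 V hV
        · refine hU.2.insert (fun V hV _ => ?_)
          refine Set.disjoint_left.2 (fun z hz hz' => ?_)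
          have := hcon V hV
          rw [Set.eq_empty_iff_forall_notMem] at this
          exact this z ⟨hUO hz, hz'⟩
      exact hmax.le_of_ge h1 (subset_insert _ _) (mem_insert _ _)
    have := hcon U hmem
    obtain ⟨z, hz⟩ := hU2
    rw [Set.eq_empty_iff_forall_notMem] at this
    exact this z ⟨hUO hz, hz⟩
  intro D hD
  have key : ∀ U ∈ 𝒰, ∃ F : ℕ → Set U, (∀ n, F n ⊆ Subtype.val ⁻¹' D n ∧
      DiscreteTopology (F n)) ∧ Dense (⋃ n, F n) := by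
    intro U hUU
    exact (hU.1 U hUU).2.2 _ (fun n => (hD n).preimage (hU.1 U hUU).1.isOpenMap_subtype_val)
  choose F hF hFd using key
  refine ⟨fun n => {z | ∃ (U : Set Z) (hUU : U ∈ 𝒰) (hz : z ∈ U), (⟨z, hz⟩ : U) ∈ F U hUU n},
    fun n => ⟨?_, discrete_of_sep _ ?_⟩, ?_⟩
  · rintro z ⟨U, hUU, hz, hzF⟩
    exact (hF U hUU n).1 hzF
  · rintro z ⟨U, hUU, hz, hzF⟩
    obtain ⟨W, hWo, hzW, hW⟩ := sep_of_discrete _ (hF U hUU n).2 _ hzF
    refine ⟨Subtype.val '' W, (hU.1 U hUU).1.isOpenMap_subtype_val W hWo, ⟨_, hzW, rfl⟩, ?_⟩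
    rintro w ⟨U', hUU', hw, hwF⟩ ⟨⟨w', hw'U⟩, hw'W, hww⟩
    dsimp only at hww
    subst hww
    have hUeq : U' = U := by
      by_contra hne
      exact Set.disjoint_left.1 (hU.2 hUU' hUU hne) hw hw'U
    subst hUeq
    exact congrArg Subtype.val (hW _ hwF hw'W)
  · rw [dense_iff_inter_open]
    intro O hO hOn
    obtain ⟨U, hUU, z, hzO, hzU⟩ := hdense O hO hOn
    obtain ⟨y, hyO, hy⟩ := (hFd U hUU).inter_open_nonempty (Subtype.val ⁻¹' O)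
      (hO.preimage continuous_subtype_val) ⟨⟨z, hzU⟩, hzO⟩
    obtain ⟨n, hn⟩ := mem_iUnion.1 hy
    exact ⟨y.1, hyO, mem_iUnion.2 ⟨n, U, hUU, y.2, hn⟩⟩

end Pool.Agent.TH382.DSP
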