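import Mathlib
import Pool.Agent.W648.DSep.Cube

/-!
# D-separable products
-/

set_option autoImplicit false

open Cardinal Set Topology

namespace Pool.Agent.TH382.DSP

open Pool.Agent.W648.DSep

/-- `X` is D-separable: for every sequence of dense sets `D n` there are discrete sets
`F n ⊆ D n` with dense union. -/
def DSeparable (X : Type) [TopologicalSpace X] : Prop :=
  ∀ D : ℕ → Set X, (∀ n, Dense (D n)) →
    ∃ F : ℕ → Set X, (∀ n, F n ⊆ D n ∧ DiscreteTopology (F n)) ∧ Dense (⋃ n, F n)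

/-- `B` is a pi-base of `X`: a family of nonempty open sets such that every nonempty open set
contains a member of `B`. -/
def IsPiBase {X : Type} [TopologicalSpace X] (B : Set (Set X)) : Prop :=
  (∀ V ∈ B, IsOpen V ∧ V.Nonempty) ∧ ∀ U : Set X, IsOpen U → U.Nonempty → ∃ V ∈ B, V ⊆ U

/-- `X` has a sigma-disjoint pi-base. -/
def HasSigmaDisjointPiBase (X : Type) [TopologicalSpace X] : Prop :=
  ∃ B : ℕ → Set (Set X), (∀ n, (B n).PairwiseDisjoint id) ∧ IsPiBase (⋃ n, B n)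

/-- `X` has a pi-base of at most `κ` members. -/
def PiWeightLE (κ : Cardinal.{0}) (X : Type) [TopologicalSpace X] : Prop :=
  ∃ B : Set (Set X), IsPiBase B ∧ #B ≤ κ

/-- Every dense subset of every nonempty open subset of `Y` has at least `κ` points. -/
def LocalDensityGE (κ : Cardinal.{0}) (Y : Type) [TopologicalSpace Y] : Prop :=
  ∀ V : Set Y, IsOpen V → V.Nonempty → ∀ S ⊆ V, V ⊆ closure S → κ ≤ #S

/-- `κ` is at most the sum of infinite cardinals `s n`, such that all members `mu _ j` of the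
sequence of length `s n` (each is the successor of `2 ^ 2 ^ (s n + the sum of the previous ones)`)
are at most `κ`. -/
def Fast (κ : Cardinal.{0}) : Prop :=
  ∃ s : ℕ → Cardinal.{0}, (∀ n, ℵ₀ ≤ s n) ∧ (∀ n (j : (s n).ord.ToType), mu _ j ≤ κ) ∧
    κ ≤ Cardinal.sum s

lemma discrete_of_sep {Z : Type} [TopologicalSpace Z] (F : Set Z)
    (h : ∀ z ∈ F, ∃ W, IsOpen W ∧ z ∈ W ∧ ∀ w ∈ F, w ∈ W → w = z) : DiscreteTopology F := by
  refine discreteTopology_iff_isOpen_singleton.2 ?_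
  rintro ⟨z, hz⟩
  obtain ⟨W, hWo, hzW, hW⟩ := h z hz
  refine isOpen_induced_iff.2 ⟨W, hWo, ?_⟩
  ext ⟨w, hw⟩
  rw [Set.mem_preimage, Set.mem_singleton_iff]
  constructor
  · intro hh
    exact Subtype.ext (hW w hw hh)
  · intro hh
    have h' : w = z := congrArg Subtype.val hh
    change w ∈ W
    rw [h']; exact hzW

lemma sep_of_discrete {Z : Type} [TopologicalSpace Z] (F : Set Z) (h : DiscreteTopology F) :
    ∀ z ∈ F, ∃ W, IsOpen W ∧ z ∈ W ∧ ∀ w ∈ F, w ∈ W → w = z := by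
  intro z hz
  have h1 : IsOpen ({⟨z, hz⟩} : Set F) := isOpen_discrete _
  obtain ⟨W, hWo, hW⟩ := isOpen_induced_iff.1 h1
  refine ⟨W, hWo, ?_, ?_⟩
  · have : (⟨z, hz⟩ : F) ∈ (Subtype.val : F → Z) ⁻¹' W := by rw [hW]; rfl
    exact this
  · intro w hw hwW
    have : (⟨w, hw⟩ : F) ∈ (Subtype.val : F → Z) ⁻¹' W := hwW
    rw [hW] at this
    exact congrArg Subtype.val this

/-- A sigma-disjoint pi-base on one factor. -/
theorem prod_of_sigma {X Y : Type} [TopologicalSpace X] [TopologicalSpace Y]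
    (hX : HasSigmaDisjointPiBase X) (hY : DSeparable Y) : DSeparable (X × Y) := by
  classical
  obtain ⟨B, hd, hB, hpi⟩ := hX
  intro D hD
  have key : ∀ n : ℕ, ∀ V ∈ B n, ∃ F : ℕ → Set Y,
      (∀ k, F k ⊆ {y | ∃ x ∈ V, (x, y) ∈ D (Nat.pair n k)} ∧ DiscreteTopology (F k)) ∧
        Dense (⋃ k, F k) := by
    intro n V hV
    refine hY (fun k => {y | ∃ x ∈ V, (x, y) ∈ D (Nat.pair n k)}) (fun k => ?_)
    rw [dense_iff_inter_open]
    intro W hWo hWn
    have hVo := hB V (mem_iUnion.2 ⟨n, hV⟩)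
    obtain ⟨⟨x, y⟩, ⟨hx, hy⟩, hxy⟩ := (hD (Nat.pair n k)).inter_open_nonempty (V ×ˢ W)
      (hVo.1.prod hWo) (hVo.2.prod hWn)
    exact ⟨y, hy, x, hx, hxy⟩
  choose F hF hFd using key
  have pt : ∀ (n : ℕ) (V : Set X) (hV : V ∈ B n) (k : ℕ) (y : Y), ∃ x : X,
      y ∈ F n V hV k → x ∈ V ∧ (x, y) ∈ D (Nat.pair n k) := by
    intro n V hV k y
    by_cases hy : y ∈ F n V hV k
    · obtain ⟨x, hx, hxy⟩ := (hF n V hV k).1 hy
      exact ⟨x, fun _ => ⟨hx, hxy⟩⟩
    · obtain ⟨x, -⟩ := (hB V (mem_iUnion.2 ⟨n, hV⟩)).2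
      exact ⟨x, fun h => absurd h hy⟩
  choose g hg using pt
  refine ⟨fun m => {p | ∃ (V : Set X) (hV : V ∈ B (Nat.unpair m).1),
    p.2 ∈ F _ V hV (Nat.unpair m).2 ∧ p.1 = g _ V hV (Nat.unpair m).2 p.2}, ?_, ?_⟩
  · intro m
    refine ⟨?_, discrete_of_sep _ ?_⟩
    · rintro ⟨x, y⟩ ⟨V, hV, hy, hx⟩
      dsimp only at hy hx
      have := (hg _ V hV _ y hy).2
      rw [← hx, Nat.pair_unpair] at this
      exact this
    · rintro ⟨x, y⟩ ⟨V, hV, hy, hx⟩
      dsimp only at hy hx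
      obtain ⟨W, hWo, hyW, hW⟩ := sep_of_discrete _ (hF _ V hV _).2 y hy
      refine ⟨V ×ˢ W, (hB V (mem_iUnion.2 ⟨_, hV⟩)).1.prod hWo, ⟨?_, hyW⟩, ?_⟩
      · show x ∈ V
        rw [hx]; exact (hg _ V hV _ y hy).1
      · rintro ⟨x', y'⟩ ⟨V', hV', hy', hx'⟩ ⟨h1, h2⟩
        dsimp only at hy' hx' h1 h2
        have hx'V' : x' ∈ V' := by rw [hx']; exact (hg _ V' hV' _ y' hy').1
        have hVV : V' = V := by
          by_contra hne
          have := hd _ hV' hV hne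
          exact (Set.disjoint_left.1 this) hx'V' h1
        subst hVV
        have : y' = y := hW y' hy' h2
        subst this
        rw [hx, hx']
  · rw [dense_iff_inter_open]
    rintro O hO ⟨⟨a, b⟩, hab⟩
    obtain ⟨U, W, hU, hW, ha, hb, hUW⟩ := isOpen_prod_iff.1 hO a b hab
    obtain ⟨V, hV, hVU⟩ := hpi U hU ⟨a, ha⟩
    obtain ⟨n, hn⟩ := mem_iUnion.1 hV
    obtain ⟨y, hyW, hy⟩ := (hFd n V hn).inter_open_nonempty W hW ⟨b, hb⟩
    obtain ⟨k, hk⟩ := mem_iUnion.1 hy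
    refine ⟨(g n V hn k y, y), hUW ⟨hVU (hg n V hn k y hk).1, hyW⟩, ?_⟩
    rw [mem_iUnion]
    refine ⟨Nat.pair n k, ?_⟩
    have aux : ∀ n' k', n' = n → k' = k → ∃ (V' : Set X) (hV' : V' ∈ B n'),
        y ∈ F n' V' hV' k' ∧ g n V hn k y = g n' V' hV' k' y := by
      rintro n' k' rfl rfl
      exact ⟨V, hn, hk, rfl⟩
    exact aux _ _ (by simp) (by simp)

/-- The choice of a discrete transversal in a Hausdorff space. -/
theorem choice_discrete {Y J : Type} [TopologicalSpace Y] [T2Space Y] [LinearOrder J]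
    [WellFoundedLT J] [Infinite J] (E : J → Set Y) (hE : ∀ j, #(E j) = mu J j) :
    ∃ x : J → Y, (∀ j, x j ∈ E j) ∧
      ∀ j, ∃ W : Set Y, IsOpen W ∧ x j ∈ W ∧ ∀ i, i ≠ j → x i ∉ W := by
  classical
  have hc : ∀ x y : Y, ∃ G : Set Y, x ≠ y → IsOpen G ∧ x ∈ G ∧ y ∉ closure G := by
    intro x y
    by_cases h : x = y
    · exact ⟨∅, fun h' => absurd h h'⟩
    · obtain ⟨u, v, hu, hv, hxu, hyv, huv⟩ := t2_separation h
      refine ⟨u, fun _ => ⟨hu, hxu, fun hy => ?_⟩⟩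
      obtain ⟨w, hw1, hw2⟩ := mem_closure_iff.1 hy v hv hyv
      exact Set.disjoint_left.1 huv hw2 hw1
  choose c hc using hc
  set L : J → Set Y := fun j => ⋃ i : Iio j, E i.1 with hL
  set ν : J → Cardinal.{0} := fun j => #J + Cardinal.sum (fun i : Iio j => mu J i.1) with hν
  have hJ : ∀ j, #J ≤ ν j := fun j => self_le_add_right _ _
  have hν0 : ∀ j, ℵ₀ ≤ ν j := fun j => (Cardinal.aleph0_le_mk J).trans (hJ j)
  have hL1 : ∀ j, #(L j) ≤ ν j := by
    intro j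
    refine (Cardinal.mk_iUnion_le_sum_mk).trans ?_
    simp only [hE]
    exact self_le_add_left _ _
  have hEL : ∀ i j, i < j → E i ⊆ L j := by
    intro i j hij
    exact subset_iUnion (fun i : Iio j => E i.1) ⟨i, hij⟩
  set C : J → Set (Set Y) := fun j => Set.image2 c (L j) (L j) with hC
  have hC1 : ∀ j, #(C j) ≤ ν j := by
    intro j
    have : #(C j) ≤ #(L j) * #(L j) := by
      rw [show #(L j) * #(L j) = #((L j) × (L j)) from Cardinal.mul_def _ _]
      refine Cardinal.mk_le_of_surjective (f := fun p : (L j) × (L j) =>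
        (⟨c p.1.1 p.2.1, Set.mem_image2_of_mem p.1.2 p.2.2⟩ : C j)) ?_
      rintro ⟨ξ, x, hx, y, hy, rfl⟩
      exact ⟨(⟨x, hx⟩, ⟨y, hy⟩), rfl⟩
    exact this.trans ((mul_le_mul' (hL1 j) (hL1 j)).trans (Cardinal.mul_eq_self (hν0 j)).le)
  -- first shrinking
  have h1 : ∀ j, ∃ E' : Set Y, E' ⊆ E j ∧ 2 ^ ((2 : Cardinal.{0}) ^ ν j) < #E' ∧
      ∀ z ∈ E', ∀ z' ∈ E', ∀ ξ ∈ C j, (z ∈ ξ ↔ z' ∈ ξ) := by
    intro j
    have hreg : (mu J j).IsRegular := by
      rw [mu_eq]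
      exact Cardinal.isRegular_succ ((hν0 j).trans ((Cardinal.cantor _).le.trans
        (Cardinal.cantor _).le))
    have hcard : #(Set (C j)) < (mu J j).ord.cof := by
      rw [hreg.cof_ord, mu_eq]
      refine lt_of_le_of_lt ?_ (Order.lt_succ _)
      rw [Cardinal.mk_set]
      refine (Cardinal.power_le_power_left two_ne_zero (hC1 j)).trans (Cardinal.cantor _).le
    obtain ⟨a, t, ht, hta, hf⟩ := Cardinal.infinite_pigeonhole_set
      (fun z : E j => ({ξ : C j | z.1 ∈ ξ.1} : Set (C j))) (mu J j) (hE j).ge hreg.1 hcard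
    refine ⟨t, ht, ?_, ?_⟩
    · refine lt_of_lt_of_le ?_ hta
      rw [mu_eq]
      exact Order.lt_succ _
    · intro z hz z' hz' ξ hξ
      have e1 : ({ξ : C j | z ∈ ξ.1} : Set (C j)) = a := hf hz
      have e2 : ({ξ : C j | z' ∈ ξ.1} : Set (C j)) = a := hf hz'
      have e3 := Set.ext_iff.1 (e1.trans e2.symm) ⟨ξ, hξ⟩
      exact e3
  choose E' hE'E hE'card hE'C using h1
  have hne : ∀ j, ∃ r, r ∈ E' j := by
    intro j
    have : (E' j).Nonempty := by
      rw [Set.nonempty_iff_ne_empty]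
      intro h0
      have := hE'card j
      rw [h0] at this
      simp at this
    exact this
  choose rep hrep using hne
  -- the path
  have h2 : ∀ j, ∃ x ∈ E' j, ∃ y ∈ E' j, ∃ z ∈ E' j, x ≠ y ∧ y ≠ z ∧
      (∀ u ∈ L j, (u ∈ c x y ↔ u ∈ c y z)) ∧
      (∀ i, (rep i ∈ c x y ↔ rep i ∈ c y z)) := by
    intro j
    let el : (L j) ⊕ J → Y := Sum.elim (fun u => u.1) rep
    have hcol : 2 ^ #(Set ((L j) ⊕ J)) < #(E' j) := by
      refine lt_of_le_of_lt ?_ (hE'card j)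
      rw [Cardinal.mk_set]
      refine Cardinal.power_le_power_left two_ne_zero
        (Cardinal.power_le_power_left two_ne_zero ?_)
      rw [Cardinal.mk_sum, Cardinal.lift_id, Cardinal.lift_id]
      exact (add_le_add (hL1 j) (hJ j)).trans (Cardinal.add_eq_self (hν0 j)).le
    obtain ⟨x, y, z, hxy, hyz, hf⟩ := shift (S := E' j)
      (fun x y => {u : (L j) ⊕ J | el u ∈ c x.1 y.1}) hcol
    refine ⟨x.1, x.2, y.1, y.2, z.1, z.2, fun h => hxy (Subtype.ext h),
      fun h => hyz (Subtype.ext h), ?_, ?_⟩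
    · intro u hu
      have := Set.ext_iff.1 hf (Sum.inl ⟨u, hu⟩)
      exact this
    · intro i
      have := Set.ext_iff.1 hf (Sum.inr i)
      exact this
  choose x hx y hy z hz hxy hyz hLj hrj using h2
  refine ⟨y, fun j => hE'E j (hy j), fun j => ?_⟩
  refine ⟨c (y j) (z j) ∩ (closure (c (x j) (y j)))ᶜ,
    (hc _ _ (hyz j)).1.inter isClosed_closure.isOpen_compl,
    ⟨(hc _ _ (hyz j)).2.1, (hc _ _ (hxy j)).2.2⟩, ?_⟩
  rintro i hij ⟨hw1, hw2⟩
  apply hw2
  apply subset_closure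
  rcases lt_or_gt_of_ne hij with h | h
  · have hmem : y i ∈ L j := hEL i j h (hE'E i (hy i))
    exact (hLj j (y i) hmem).2 hw1
  · have hxL : x j ∈ L i := hEL j i h (hE'E j (hx j))
    have hyL : y j ∈ L i := hEL j i h (hE'E j (hy j))
    have hzL : z j ∈ L i := hEL j i h (hE'E j (hz j))
    have a1 := hE'C i (y i) (hy i) (rep i) (hrep i) _ (Set.mem_image2_of_mem hxL hyL)
    have a2 := hE'C i (y i) (hy i) (rep i) (hrep i) _ (Set.mem_image2_of_mem hyL hzL)
    exact a1.2 ((hrj j i).2 (a2.1 hw1))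

/-- The general criterion. -/
theorem of_map {κ : Cardinal.{0}} (hκ : Fast κ) {Z Y : Type} [TopologicalSpace Z]
    [TopologicalSpace Y] [T2Space Y] (f : Z → Y) (hf : Continuous f) (hZ : PiWeightLE κ Z)
    (hd : ∀ G : Set Z, IsOpen G → G.Nonempty → ∀ S ⊆ G, G ⊆ closure S → κ ≤ #(f '' S)) :
    DSeparable Z := by
  classical
  obtain ⟨s, hs0, hsmu, hsum⟩ := hκ
  obtain ⟨B, ⟨hBo, hBpi⟩, hBcard⟩ := hZ
  have hcard : #B ≤ #(Σ n : ℕ, (s n).out) := by
    rw [Cardinal.mk_sigma]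
    simp only [Cardinal.mk_out]
    exact hBcard.trans hsum
  obtain ⟨emb⟩ := hcard
  -- one step
  have step : ∀ (n : ℕ) (D : Set Z), Dense D → ∃ F : Set Z, F ⊆ D ∧ DiscreteTopology F ∧
      ∀ p : B, (emb p).1 = n → (F ∩ p.1).Nonempty := by
    intro n D hD
    let J := (s n).ord.ToType
    have hJ : #J = s n := by simp [J]
    have : Infinite J := Cardinal.infinite_iff.2 (by rw [hJ]; exact hs0 n)
    let P := {p : B // (emb p).1 = n}
    rcases isEmpty_or_nonempty P with hP | hP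
    · refine ⟨∅, empty_subset _, inferInstance, fun p hp => (hP.false ⟨p, hp⟩).elim⟩
    have hPc : #P ≤ #J := by
      rw [hJ, ← Cardinal.mk_out (s n)]
      refine Cardinal.mk_le_of_injective (f := fun p : P => (p.2 ▸ (emb p.1).2 : (s n).out)) ?_
      rintro ⟨p, rfl⟩ ⟨q, hq⟩ h
      apply Subtype.ext
      apply emb.injective
      apply Sigma.ext hq.symm
      dsimp only at h
      rw [h]
      exact eqRec_heq_iff.2 HEq.rfl
    obtain ⟨ej⟩ := hPc
    have hsurj : Function.Surjective (Function.invFun ej) := Function.invFun_surjective ej.injective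
    set e : J → P := Function.invFun ej with he
    have hbig : ∀ j : J, ∃ E : Set Y, E ⊆ f '' (D ∩ (e j).1.1) ∧ #E = mu J j := by
      intro j
      refine Cardinal.le_mk_iff_exists_subset.1 ((hsmu n j).trans ?_)
      have h1 := hBo (e j).1.1 (e j).1.2
      refine hd (e j).1.1 h1.1 h1.2 _ inter_subset_right ?_
      rw [inter_comm]
      exact hD.open_subset_closure_inter h1.1
    choose E hE hEc using hbig
    obtain ⟨y, hy, hW⟩ := choice_discrete E hEc
    have hz : ∀ j, ∃ z, (z ∈ D ∧ z ∈ (e j).1.1) ∧ f z = y j := by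
      intro j
      obtain ⟨z, hz, hzy⟩ := hE j (hy j)
      exact ⟨z, hz, hzy⟩
    choose z hz hzy using hz
    refine ⟨Set.range z, ?_, discrete_of_sep _ ?_, ?_⟩
    · rintro _ ⟨j, rfl⟩
      exact (hz j).1
    · rintro _ ⟨j, rfl⟩
      obtain ⟨W, hWo, hjW, hiW⟩ := hW j
      refine ⟨f ⁻¹' W, hWo.preimage hf, by rw [mem_preimage, hzy]; exact hjW, ?_⟩
      rintro _ ⟨i, rfl⟩ hi
      rw [mem_preimage, hzy] at hi
      by_contra hne
      exact hiW i (fun h' => hne (by rw [h'])) hi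
    · intro p hp
      obtain ⟨j, hj⟩ := hsurj ⟨p, hp⟩
      refine ⟨z j, ⟨j, rfl⟩, ?_⟩
      have := (hz j).2
      rw [hj] at this
      exact this
  intro D hD
  choose F hF1 hF2 hF3 using fun n => step n (D n) (hD n)
  refine ⟨F, fun n => ⟨hF1 n, hF2 n⟩, ?_⟩
  rw [dense_iff_inter_open]
  intro U hU hUn
  obtain ⟨V, hV, hVU⟩ := hBpi U hU hUn
  obtain ⟨x, hx1, hx2⟩ := hF3 (emb ⟨V, hV⟩).1 ⟨V, hV⟩ rfl
  exact ⟨x, hVU hx2, Set.mem_iUnion.2 ⟨_, hx1⟩⟩

end Pool.Agent.TH382.DSP
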