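import Pool.Agent.TH382.DSP.Fin

set_option autoImplicit false

open Cardinal Set Topology

namespace Pool.Agent.TH382.DSP

open Pool.Agent.W648.DSep

/-- `U` is homeomorphic to a product `A × B`, where `A` has a sigma-disjoint pi-base and `B` is a
point or a Hausdorff space of type two for some `κ` with the property `P`. -/
def Nice (P : Cardinal.{0} → Prop) (U : Type) [TopologicalSpace U] : Prop :=
  ∃ (A B : Type) (_ : TopologicalSpace A) (_ : TopologicalSpace B) (_ : T2Space B),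
    HasSigmaDisjointPiBase A ∧
    (Nonempty (Unique B) ∨ ∃ κ, Fast κ ∧ TypeTwo κ B ∧ P κ) ∧ Nonempty (U ≃ₜ A × B)

/-- Every nonempty open subset of `X` contains a nonempty open set which is nice. -/
def LocallyNice (P : Cardinal.{0} → Prop) (X : Type) [TopologicalSpace X] : Prop :=
  ∀ O : Set X, IsOpen O → O.Nonempty → ∃ U ⊆ O, IsOpen U ∧ U.Nonempty ∧ Nice P U

lemma density_homeo {κ : Cardinal.{0}} {X Y : Type} [TopologicalSpace X] [TopologicalSpace Y]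
    (e : X ≃ₜ Y) (h : LocalDensityGE κ X) : LocalDensityGE κ Y := by
  intro V hV hVn S hS hVS
  have := h (e ⁻¹' V) (hV.preimage e.continuous) (hVn.preimage e.surjective) (e ⁻¹' S)
    (preimage_mono hS) (by rw [← e.preimage_closure]; exact preimage_mono hVS)
  exact this.trans (Cardinal.mk_preimage_of_injective e S e.injective)

lemma density_prod {κ : Cardinal.{0}} {X Y : Type} [TopologicalSpace X] [TopologicalSpace Y]
    (hd : LocalDensityGE κ Y) : LocalDensityGE κ (X × Y) := by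
  rintro G hG ⟨⟨a, b⟩, hab⟩ S hSG hGS
  obtain ⟨U, V, hU, hV, ha, hb, hUV⟩ := isOpen_prod_iff.1 hG a b hab
  have h1 : Prod.snd '' (S ∩ U ×ˢ V) ⊆ V := by
    rintro _ ⟨⟨x, y⟩, ⟨-, -, hy⟩, rfl⟩
    exact hy
  have h2 : V ⊆ closure (Prod.snd '' (S ∩ U ×ˢ V)) := by
    intro v hv
    rw [mem_closure_iff]
    intro W hW hvW
    have h3 : (a, v) ∈ closure S := hGS (hUV ⟨ha, hv⟩)
    obtain ⟨⟨x, y⟩, ⟨hx, hy1, hy2⟩, hxy⟩ := mem_closure_iff.1 h3 (U ×ˢ (W ∩ V))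
      (hU.prod (hW.inter hV)) ⟨ha, hvW, hv⟩
    exact ⟨y, hy1, (x, y), ⟨hxy, hx, hy2⟩, rfl⟩
  exact ((hd V hV ⟨b, hb⟩ _ h1 h2).trans Cardinal.mk_image_le).trans
    (Cardinal.mk_le_mk_of_subset inter_subset_left)

lemma piWeight_unique {κ : Cardinal.{0}} (h0 : ℵ₀ ≤ κ) {X : Type} [TopologicalSpace X]
    [Unique X] : PiWeightLE κ X := by
  refine ⟨{Set.univ}, ⟨?_, ?_⟩, ?_⟩
  · rintro _ rfl
    exact ⟨isOpen_univ, univ_nonempty⟩
  · intro U _ hUn
    refine ⟨Set.univ, rfl, ?_⟩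
    obtain ⟨x, hx⟩ := hUn
    intro y _
    rwa [Subsingleton.elim y x]
  · rw [Cardinal.mk_singleton]
    exact Cardinal.one_le_aleph0.trans h0

lemma typeTwo_prod_right {κ : Cardinal.{0}} (h0 : ℵ₀ ≤ κ) {X Y : Type} [TopologicalSpace X]
    [TopologicalSpace Y] (hX : PiWeightLE κ X) (hY : TypeTwo κ Y) : TypeTwo κ (X × Y) :=
  ⟨hX.prod h0 hY.1, density_prod hY.2⟩

lemma typeTwo_prod_left {κ : Cardinal.{0}} (h0 : ℵ₀ ≤ κ) {X Y : Type} [TopologicalSpace X]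
    [TopologicalSpace Y] (hX : TypeTwo κ X) (hY : PiWeightLE κ Y) : TypeTwo κ (X × Y) :=
  ⟨hX.1.prod h0 hY, density_homeo (Homeomorph.prodComm Y X) (density_prod hX.2)⟩

lemma sigma_prod {X Y : Type} [TopologicalSpace X] [TopologicalSpace Y]
    (hX : HasSigmaDisjointPiBase X) (hY : HasSigmaDisjointPiBase Y) :
    HasSigmaDisjointPiBase (X × Y) := by
  obtain ⟨A, hAd, hA1, hA2⟩ := hX
  obtain ⟨B, hBd, hB1, hB2⟩ := hY
  refine ⟨fun m => Set.image2 (fun U V => U ×ˢ V) (A (Nat.unpair m).1) (B (Nat.unpair m).2),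
    ?_, ?_, ?_⟩
  · rintro m _ ⟨U, hU, V, hV, rfl⟩ _ ⟨U', hU', V', hV', rfl⟩ hne
    refine Set.disjoint_left.2 ?_
    rintro ⟨x, y⟩ ⟨hx, hy⟩ ⟨hx', hy'⟩
    apply hne
    have h1 : U = U' := by
      by_contra h
      exact Set.disjoint_left.1 (hAd _ hU hU' h) hx hx'
    have h2 : V = V' := by
      by_contra h
      exact Set.disjoint_left.1 (hBd _ hV hV' h) hy hy'
    rw [h1, h2]
  · intro W hW
    obtain ⟨m, U, hU, V, hV, rfl⟩ := mem_iUnion.1 hW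
    exact ⟨(hA1 U (mem_iUnion.2 ⟨_, hU⟩)).1.prod (hB1 V (mem_iUnion.2 ⟨_, hV⟩)).1,
      (hA1 U (mem_iUnion.2 ⟨_, hU⟩)).2.prod (hB1 V (mem_iUnion.2 ⟨_, hV⟩)).2⟩
  · rintro O hO ⟨⟨a, b⟩, hab⟩
    obtain ⟨U, W, hU, hW, ha, hb, hUW⟩ := isOpen_prod_iff.1 hO a b hab
    obtain ⟨U', hU', hUU⟩ := hA2 U hU ⟨a, ha⟩
    obtain ⟨W', hW', hWW⟩ := hB2 W hW ⟨b, hb⟩
    obtain ⟨n, hn⟩ := mem_iUnion.1 hU'
    obtain ⟨k, hk⟩ := mem_iUnion.1 hW'
    refine ⟨_, mem_iUnion.2 ⟨Nat.pair n k, U', ?_, W', ?_, rfl⟩, (Set.prod_mono hUU hWW).trans hUW⟩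
    · simpa using hn
    · simpa using hk

lemma sigma_unit : HasSigmaDisjointPiBase Unit := by
  refine ⟨fun _ => {Set.univ}, fun _ => Set.pairwiseDisjoint_singleton _ _, ?_, ?_⟩
  · intro V hV
    obtain ⟨-, rfl⟩ := mem_iUnion.1 hV
    exact ⟨isOpen_univ, univ_nonempty⟩
  · intro U _ hUn
    refine ⟨Set.univ, mem_iUnion.2 ⟨0, rfl⟩, ?_⟩
    obtain ⟨x, hx⟩ := hUn
    intro y _
    rwa [Subsingleton.elim y x]

lemma nice_homeo {P : Cardinal.{0} → Prop} {X Y : Type} [TopologicalSpace X]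
    [TopologicalSpace Y] (e : X ≃ₜ Y) (h : Nice P X) : Nice P Y := by
  obtain ⟨A, B, _, _, hT, hA, hB, ⟨f⟩⟩ := h
  exact ⟨A, B, _, _, hT, hA, hB, ⟨e.symm.trans f⟩⟩

lemma nice_of_sigma (P : Cardinal.{0} → Prop) {X : Type} [TopologicalSpace X]
    (h : HasSigmaDisjointPiBase X) : Nice P X :=
  ⟨X, Unit, _, _, inferInstance, h, Or.inl ⟨inferInstance⟩, ⟨(Homeomorph.prodUnique X Unit).symm⟩⟩

lemma nice_of_typeTwo {P : Cardinal.{0} → Prop} {X : Type} [TopologicalSpace X] [T2Space X]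
    {κ : Cardinal.{0}} (hκ : Fast κ) (hP : P κ) (h : TypeTwo κ X) : Nice P X :=
  ⟨Unit, X, _, _, inferInstance, sigma_unit, Or.inr ⟨κ, hκ, h, hP⟩,
    ⟨(Homeomorph.uniqueProd Unit X).symm⟩⟩

lemma nice_prod {X Y : Type} [TopologicalSpace X] [TopologicalSpace Y]
    (hX : Nice (fun _ => True) X) (hY : Nice (fun _ => True) Y) :
    Nice (fun _ => True) (X × Y) := by
  obtain ⟨A, B, _, _, hT, hA, hB, ⟨f⟩⟩ := hX
  obtain ⟨A', B', _, _, hT', hA', hB', ⟨f'⟩⟩ := hY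
  refine ⟨A × A', B × B', inferInstance, inferInstance, inferInstance, sigma_prod hA hA', ?_,
    ⟨(f.prodCongr f').trans (Homeomorph.prodProdProdComm A B A' B')⟩⟩
  rcases hB with ⟨⟨u⟩⟩ | ⟨κ, hκ, h2, -⟩
  · rcases hB' with ⟨⟨u'⟩⟩ | ⟨κ', hκ', h2', -⟩
    · exact Or.inl ⟨⟨⟨(u.default, u'.default)⟩, fun p => Prod.ext (u.uniq _) (u'.uniq _)⟩⟩
    · exact Or.inr ⟨κ', hκ', typeTwo_prod_right hκ'.aleph0_le
        (piWeight_unique hκ'.aleph0_le) h2', trivial⟩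
  · rcases hB' with ⟨⟨u'⟩⟩ | ⟨κ', hκ', h2', -⟩
    · exact Or.inr ⟨κ, hκ, typeTwo_prod_left hκ.aleph0_le h2
        (piWeight_unique hκ.aleph0_le), trivial⟩
    · rcases le_total κ κ' with hle | hle
      · exact Or.inr ⟨κ', hκ', typeTwo_prod_right hκ'.aleph0_le (h2.1.mono hle) h2', trivial⟩
      · exact Or.inr ⟨κ, hκ, typeTwo_prod_left hκ.aleph0_le h2 (h2'.1.mono hle), trivial⟩

/-- Locally nice spaces are closed under products. -/
theorem locallyNice_prod {X Y : Type} [TopologicalSpace X] [TopologicalSpace Y]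
    (hX : LocallyNice (fun _ => True) X) (hY : LocallyNice (fun _ => True) Y) :
    LocallyNice (fun _ => True) (X × Y) := by
  rintro G hG ⟨⟨a, b⟩, hab⟩
  obtain ⟨U0, W0, hU0, hW0, ha, hb, hUW⟩ := isOpen_prod_iff.1 hG a b hab
  obtain ⟨U, hUU, hU, hUn, hcU⟩ := hX U0 hU0 ⟨a, ha⟩
  obtain ⟨V, hVV, hV, hVn, hcV⟩ := hY W0 hW0 ⟨b, hb⟩
  exact ⟨U ×ˢ V, (Set.prod_mono hUU hVV).trans hUW, hU.prod hV, hUn.prod hVn,
    nice_homeo (Homeomorph.Set.prod U V).symm (nice_prod hcU hcV)⟩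

/-- The product of a D-separable space and a nice space. -/
theorem prod_nice {X Y : Type} [TopologicalSpace X] [TopologicalSpace Y] (hX : DSeparable X)
    (hY : Nice (fun κ => PiWeightLE κ X) Y) : DSeparable (X × Y) := by
  obtain ⟨A, B, _, _, hT, hA, hB, ⟨f⟩⟩ := hY
  have h1 : DSeparable (B × X) := by
    rcases hB with ⟨⟨u⟩⟩ | ⟨κ, hκ, h2, hP⟩
    · exact dsep_homeo (Homeomorph.uniqueProd B X).symm hX
    · exact prod_comm_dsep (prod_of_density hκ hP h2.1 h2.2)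
  have h2 : DSeparable ((A × B) × X) :=
    dsep_homeo (Homeomorph.prodAssoc A B X).symm (prod_of_sigma hA h1)
  exact prod_comm_dsep (dsep_homeo (f.symm.prodCongr (Homeomorph.refl X)) h2)

theorem prod_locallyNice {X Y : Type} [TopologicalSpace X] [TopologicalSpace Y]
    (hX : DSeparable X) (hY : LocallyNice (fun κ => PiWeightLE κ X) Y) :
    DSeparable (X × Y) := by
  refine glue ?_
  rintro G hG ⟨⟨a, b⟩, hab⟩
  obtain ⟨U, W, hU, hW, ha, hb, hUW⟩ := isOpen_prod_iff.1 hG a b hab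
  obtain ⟨V, hVW, hV, hVn, hcase⟩ := hY W hW ⟨b, hb⟩
  refine ⟨U ×ˢ V, (Set.prod_mono Subset.rfl hVW).trans hUW, hU.prod hV,
    Set.Nonempty.prod ⟨a, ha⟩ hVn, prod_open U V (prod_nice (dsep_open hX U hU) ?_)⟩
  obtain ⟨A, B, _, _, hT, hA, hB, hf⟩ := hcase
  refine ⟨A, B, _, _, hT, hA, ?_, hf⟩
  rcases hB with h | ⟨κ, hκ, h2, hP⟩
  · exact Or.inl h
  · exact Or.inr ⟨κ, hκ, h2, piWeight_open hP U hU⟩

lemma nice_dsep {X : Type} [TopologicalSpace X] (h : Nice (fun _ => True) X) : DSeparable X := by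
  obtain ⟨A, B, _, _, hT, hA, hB, ⟨f⟩⟩ := h
  refine dsep_homeo f.symm (prod_of_sigma hA ?_)
  rcases hB with ⟨⟨u⟩⟩ | ⟨κ, hκ, h2, -⟩
  · intro D hD
    exact ⟨D, fun n => ⟨Subset.rfl, inferInstance⟩, (hD 0).mono (subset_iUnion D 0)⟩
  · exact dsep_of_density hκ h2.1 h2.2

theorem locallyNice_dsep {X : Type} [TopologicalSpace X] (h : LocallyNice (fun _ => True) X) :
    DSeparable X := by
  refine glue ?_
  intro O hO hOn
  obtain ⟨U, hUO, hU, hUn, hN⟩ := h O hO hOn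
  exact ⟨U, hUO, hU, hUn, nice_dsep hN⟩

lemma sigma_open {X : Type} [TopologicalSpace X] (h : HasSigmaDisjointPiBase X) (U : Set X)
    (hU : IsOpen U) : HasSigmaDisjointPiBase U := by
  obtain ⟨B, hd, hB1, hB2⟩ := h
  refine ⟨fun n => {W | ∃ V ∈ B n, V ⊆ U ∧ W = Subtype.val ⁻¹' V}, ?_, ?_, ?_⟩
  · rintro n _ ⟨V, hV, hVU, rfl⟩ _ ⟨V', hV', hVU', rfl⟩ hne
    refine Set.disjoint_left.2 (fun z hz hz' => hne ?_)
    have : V = V' := by
      by_contra h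
      exact Set.disjoint_left.1 (hd n hV hV' h) hz hz'
    rw [this]
  · intro W hW
    obtain ⟨n, V, hV, hVU, rfl⟩ := mem_iUnion.1 hW
    have h1 := hB1 V (mem_iUnion.2 ⟨n, hV⟩)
    obtain ⟨x, hx⟩ := h1.2
    exact ⟨h1.1.preimage continuous_subtype_val, ⟨x, hVU hx⟩, hx⟩
  · intro O hO hOn
    obtain ⟨O', hO', rfl⟩ := isOpen_induced_iff.1 hO
    obtain ⟨x, hx⟩ := hOn
    obtain ⟨V, hV, hVO⟩ := hB2 (O' ∩ U) (hO'.inter hU) ⟨x.1, hx, x.2⟩
    obtain ⟨n, hn⟩ := mem_iUnion.1 hV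
    exact ⟨_, mem_iUnion.2 ⟨n, V, hn, fun y hy => (hVO hy).2, rfl⟩, fun y hy => (hVO hy).1⟩

lemma density_open {κ : Cardinal.{0}} {X : Type} [TopologicalSpace X] (h : LocalDensityGE κ X)
    (U : Set X) (hU : IsOpen U) : LocalDensityGE κ U := by
  intro V hV hVn S hS hVS
  refine (h (Subtype.val '' V) (hU.isOpenMap_subtype_val V hV) (hVn.image _)
    (Subtype.val '' S) (image_mono hS) ?_).trans Cardinal.mk_image_le
  exact (image_mono hVS).trans (image_closure_subset_closure_image continuous_subtype_val)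

/-- Spaces with a sigma-disjoint pi-base are locally nice. -/
theorem locallyNice_of_sigma (P : Cardinal.{0} → Prop) {X : Type} [TopologicalSpace X]
    (h : HasSigmaDisjointPiBase X) : LocallyNice P X :=
  fun O hO hOn => ⟨O, Subset.rfl, hO, hOn, nice_of_sigma P (sigma_open h O hO)⟩

/-- Hausdorff spaces of type two are locally nice. -/
theorem locallyNice_of_typeTwo {P : Cardinal.{0} → Prop} {X : Type} [TopologicalSpace X]
    [T2Space X] {κ : Cardinal.{0}} (hκ : Fast κ) (hP : P κ) (h : TypeTwo κ X) :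
    LocallyNice P X :=
  fun O hO hOn => ⟨O, Subset.rfl, hO, hOn,
    nice_of_typeTwo hκ hP ⟨piWeight_open h.1 O hO, density_open h.2 O hO⟩⟩

end Pool.Agent.TH382.DSP
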